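import Pool.Agent.Run7.h823.SG.DS
import Pool.Agent.Run7.h823.WF.PN
import Pool.Agent.Run7.h823.WF.Ex

/-!
# Difference sets with bounded `l`: block sizes `k` in sparse families of residues

The question is whether for fixed `l > 1` there are only finitely many `(v, k, l)` difference sets in abelian groups. Here the
groups are arbitrary finite groups. The starting file `RegularDesigns` of the page MP_c38931_co shows in the language of
designs with regular groups that for fixed `l` almost all `k` do not occur. Such a statement says nothing about sparse sets of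
`k`. Here `k` is near the value of a linear form at members of very sparse FINITE sets of integers which are defined modulo a
large integer, such as the first `m ^ ε` terms of a linear recurrence modulo a prime `m`.

Let `y_i`, `i ∈ s`, be a finite family of vectors of residues modulo an
integer `q` with small Fourier coefficients: for all `h ≠ 0` modulo `q` we have
`|∑ e(h·y_i / q)| ≤ δ (log q) ^ (-r) |s|`, where `r` is the number of the coordinates.

**Theorem.** For all `r`, `B` and `ε > 0` there is `δ > 0` such that for all `q ≥ 1 / δ`, ALL such families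
and ALL integral vectors `c₀` the following holds for all but `ε |s|` of the `i`, SIMULTANEOUSLY for ALL linear forms `ℓ ≠ 0` with
coefficients at most `B` in absolute value, ALL integers `k ≥ 2` with `|k - ℓ(c₀ + y_i)| ≤ B` (least residues) and ALL
`l ≤ B`, `v ≥ k + 2`: no group contains a `(v, k, l)` difference set.

The family can be very sparse: examples (of vectors with `r` coordinates) are

* the values `(u_1(n), …, u_r(n))`, `n < N`, of `r` linear recurrences modulo a prime `m` with linearly independent vectors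
  of coefficients, as soon as `N ≥ m ^ ε` and the roots and their quotients have orders `≥ m ^ ε`;
* the vectors `(x_1 b_1 ^ n, …, x_r b_r ^ n)`, `n < N`, `N ≥ m ^ ε`, for fixed different integers `b_j ≥ 2` and
  all `x_j ≠ 0`, modulo all but `C X ^ ε` of the primes `m ≤ X`.

In these examples only `m ^ ε` of the `m ^ r` vectors of the box occur.

From Mathlib: `ZMod.stdAddChar`: the additive character `j ↦ exp (2 π i j / q)` of the integers modulo `q`; `ZMod.val`: the
least residue.

The proof: the counting `l (v - 1) = k (k - 1)` shows that a prime `q' > l` divides `v` if and only if `k ^ 2 - k + l ≡ 0` modulo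
`q'`; the sum of `1 / q'` over the primes `q'` for which there is such a class `k` diverges (splitting primes of a quadratic
field). If moreover a prime `r'` that is not a square modulo `q'` divides `k - l` exactly once, then `v` is odd (local form
of the theorem of Schützenberger, Bruck, Ryser and Chowla, starting file `Pool.Agent.H177R2.SD.Brc`) and there is no
difference set (starting file `Pool.Agent.H771R2.Lander`). By Dirichlet's theorem and the sieve with the moduli `q'`,
`r' ^ 2`, all of them prime to a given `M`, the integers `k` form a thin set (`Pool.Agent.Run7.h823.SG.thin_ds`), and the vectors `c`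
with such a `k` near `ℓ(c)` form a pronull set (`Pool.Agent.Run7.h823.SG.windows`); families with small Fourier coefficients
rarely meet pronull sets, since they are equidistributed modulo every fixed integer (`Pool.Agent.Run7.h823.WF.PN`); the
Fourier coefficients of short recurrences are estimated by the method of Bourgain, Glibichuk and Konyagin
(`Pool.Agent.Run7.h823.BK`).
-/

set_option autoImplicit false

namespace Pool.Agent.Results.MP_0820eb_co.ResidueVectors

open Finset (range)

/-- The Fourier coefficients of the vectors of residues `y i`, `i ∈ s`, modulo `q` at the nonzero frequencies are at most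
`η` times the number of the vectors: `|∑ i ∈ s, e(h·y_i / q)| ≤ η |s|` for all vectors `h ≠ 0` modulo `q`. -/
def Flat {τ ι : Type} [Fintype ι] (q : ℕ) [NeZero q] (η : ℝ) (s : Finset τ) (y : τ → ι → ZMod q) : Prop :=
  ∀ h : ι → ZMod q, h ≠ 0 → ‖∑ i ∈ s, (ZMod.stdAddChar (∑ j, h j * y i j) : ℂ)‖ ≤ η * s.card

/-- The integral vector `c₀ + y_i`, with the least residues `0 ≤ y_i < q`. -/
def vec {τ ι : Type} {q : ℕ} (y : τ → ι → ZMod q) (c₀ : ι → ℤ) (i : τ) (j : ι) : ℤ := c₀ j + ((y i j).val : ℕ)

/-- Some finite group `G` of order `v` (not assumed abelian) contains a `(v, k, l)` difference set: a set `D` of `k` elements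
such that every `g ≠ 1` has exactly `l` representations `g = a * b⁻¹` with `a, b ∈ D`. -/
def HasDifferenceSet (v k l : ℕ) : Prop :=
  ∃ (G : Type) (_ : Group G) (_ : Fintype G) (_ : DecidableEq G) (D : Finset G),
    Fintype.card G = v ∧ D.card = k ∧
    ∀ g : G, g ≠ 1 → ((D ×ˢ D).filter (fun p : G × G => p.1 * p.2⁻¹ = g)).card = l

/-- Near the values of all small linear forms at the integral vector `c` there are no block sizes: for all linear forms `ℓ ≠ 0`
with coefficients `|lam_j| ≤ B`, all `k ≥ 2` with `|k - ℓ(c)| ≤ B`, all `l ≤ B` and all `v ≥ k + 2` no group contains a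
`(v, k, l)` difference set. -/
def NoDifferenceSetNear {r : ℕ} (B : ℕ) (c : Fin r → ℤ) : Prop :=
  ∀ lam : Fin r → ℤ, lam ≠ 0 → (∀ j, |lam j| ≤ B) → ∀ k : ℕ, 2 ≤ k → |(k : ℤ) - ∑ j, lam j * c j| ≤ B →
    ∀ v l : ℕ, l ≤ B → k + 2 ≤ v → ¬ HasDifferenceSet v k l

open Pool.Agent.N24.RW (ProNull) in
theorem null (r B : ℕ) : ProNull {c : Fin r → ℤ | ¬ NoDifferenceSetNear B c} := by
  refine Pool.Agent.N24.RW.Clo.mono ?_ (Pool.Agent.Run7.h823.WF.PN.proNull_union (Set.finite_Iic B)
    (fun l => {c : Fin r → ℤ | ∃ lam : Fin r → ℤ, lam ≠ 0 ∧ (∀ j, |lam j| ≤ (2 * B : ℕ)) ∧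
      ∃ n : ℤ, |n - ∑ j, lam j * c j| ≤ (2 * B : ℕ) ∧ Pool.Agent.Run7.h823.SG.OrdDS l n})
    (fun l _ => Pool.Agent.Run7.h823.SG.windows (Pool.Agent.Run7.h823.SG.thin_ds l) r (2 * B)))
  intro c hc
  by_contra hcon
  apply hc
  intro lam hl hlB k hk hn v l hlB' hkv hd
  refine hcon ⟨l, hlB', lam, hl, fun j => (hlB j).trans (by push_cast; linarith [Int.natCast_nonneg B]), (k : ℤ) - l, ?_, k, v, rfl, hk, hkv,
    hd⟩
  have h1 := abs_le.1 hn
  have h2 : (l : ℤ) ≤ B := by exact_mod_cast hlB'
  have h3 : (0 : ℤ) ≤ l := Int.natCast_nonneg l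
  have h4 : (0 : ℤ) ≤ B := Int.natCast_nonneg B
  rw [abs_le]
  push_cast
  constructor <;> linarith [h1.1, h1.2]

/-- **Theorem.** (1) For all `r`, `B` and `ε > 0` there is `δ > 0` such that for all `q ≥ 1 / δ`, all families of vectors of
residues modulo `q` with Fourier coefficients at most `δ (log q) ^ (-r) |s|` at the nonzero frequencies and all integral
vectors `c₀` all but `ε |s|` of the members `c₀ + y_i` have the property `NoDifferenceSetNear B`.

(2) Examples: short linear recurrences. (3) Examples: the first powers of fixed integers, modulo all but `C X ^ ε` of the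
primes `m ≤ X`. (The Fourier coefficients are even at most `m ^ (-β) N`.) -/
theorem result :
    (∀ (r B : ℕ) (ε : ℝ), 0 < ε → ∃ δ : ℝ, 0 < δ ∧ ∀ (q : ℕ) [NeZero q], 1 / δ ≤ q →
      ∀ (τ : Type) (s : Finset τ) (y : τ → Fin r → ZMod q), Flat q (δ / Real.log q ^ r) s y →
      ∀ c₀ : Fin r → ℤ, ({i : τ | i ∈ s ∧ ¬ NoDifferenceSetNear B (vec y c₀ i)}.ncard : ℝ) ≤ ε * s.card) ∧
    (∀ (k : ℕ) (ε : ℝ), 0 < ε → ∃ β : ℝ, 0 < β ∧ ∃ m₀ : ℕ, ∀ (m : ℕ) [Fact m.Prime], m₀ ≤ m →
      ∀ (ι : Type) [Fintype ι] (c : ι → Fin k → ZMod m) (g : Fin k → (ZMod m)ˣ) (N : ℕ), LinearIndependent (ZMod m) c →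
      (∀ i, (m : ℝ) ^ ε ≤ orderOf (g i)) → (∀ i j, i ≠ j → (m : ℝ) ^ ε ≤ orderOf (g i / g j)) → (m : ℝ) ^ ε ≤ N →
      Flat m ((m : ℝ) ^ (-β)) (range N) (fun n j => ∑ i, c j i * (g i : ZMod m) ^ n)) ∧
    (∀ (ι : Type) [Fintype ι] (ε : ℝ), 0 < ε → ∃ β : ℝ, 0 < β ∧ ∀ b : ι → ℕ, (∀ j, 2 ≤ b j) → Function.Injective b →
      ∃ C : ℝ, ∀ X : ℕ, 1 ≤ X → ∀ Q : Finset ℕ,
      (∀ m ∈ Q, m ≤ X ∧ ∃ _ : Fact m.Prime, ¬ ∀ N : ℕ, (m : ℝ) ^ ε ≤ N → ∀ x : ι → ZMod m, (∀ j, x j ≠ 0) →
        Flat m ((m : ℝ) ^ (-β)) (range N) (fun n j => x j * (b j : ZMod m) ^ n)) →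
      (Q.card : ℝ) ≤ C * (X : ℝ) ^ ε) := by
  refine ⟨?_, fun k ε hε => Pool.Agent.Run7.h823.WF.flat_rec' k hε,
    fun ι _ ε hε => Pool.Agent.Run7.h823.WF.flat_pow' ι hε⟩
  intro r B ε hε
  obtain ⟨δ, hδ, h⟩ := Pool.Agent.Run7.h823.WF.PN.rare _ (null r B) hε
  refine ⟨δ, hδ, fun q _ hq τ s y hf c₀ => h τ q hq s y ?_ c₀⟩
  rw [Fintype.card_fin]
  exact hf

end Pool.Agent.Results.MP_0820eb_co.ResidueVectors
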